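import Pool.Agent.Helper52.SZ.Defs

/-!
# Project SZ, SZ-3: the multidimensional Hales-Jewett theorem in all large dimensions
-/

namespace Pool.Agent.Helper52.SZ

open Combinatorics

theorem mhj_large (β : Type) [Finite β] [Nonempty β] (K : Type) [Finite K] (n : ℕ) :
    ∃ n0 : ℕ, ∀ (ι : Type) [Finite ι], n0 ≤ Nat.card ι → ∀ C : (ι → β) → K,
      ∃ V : Subspace (Fin n) β ι, ∃ c, ∀ x, C (V x) = c := by
  obtain ⟨m, hm⟩ := Subspace.exists_mono_in_high_dimension_fin β K (Fin n)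
  refine ⟨m, fun ι _ hι C => ?_⟩
  obtain ⟨κ', _, ⟨e⟩, -⟩ := exists_split hι
  obtain ⟨v0⟩ : Nonempty (κ' → β) := inferInstance
  obtain ⟨U, c, hc⟩ := hm fun u => C (glue e u v0)
  exact ⟨subL e U v0, c, fun x => by rw [subL_apply]; exact hc x⟩

end Pool.Agent.Helper52.SZ
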